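import Pool.Agent.Helper24.HW.Stmts

/-! HW: the comb-ladder is a current graph. -/

namespace Pool.Agent.Helper97.HW

open Equiv Equiv.Perm Pool.Agent.Helper24.HW Pool.Agent.Helper24.HWPub Pool.Agent.Helper98.Gn

theorem CG (h1 : ST_NG) (h2 : ST_VAL) (h3 : ST_KCL) : ST_CG := by
  intro k j t _ h
  set N := 6 * k + 4 * j + 5 with hN
  have : NeZero N := ⟨by omega⟩
  have hneg : ∀ t, cc k j (ngf k j t) = -cc k j t := by
    intro t
    unfold cc
    rw [(h1 k j).2.2, Int.cast_neg]
  have hnz : ∀ t, cc k j t ≠ 0 := by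
    intro t ht
    unfold cc at ht
    rw [ZMod.intCast_zmod_eq_zero_iff_dvd] at ht
    obtain ⟨h4, h5⟩ := (h2 k j).1 t
    apply h4
    apply Int.eq_zero_of_abs_lt_dvd ht
    push_cast
    linarith
  have hsur : ∀ z : ZMod N, z ≠ 0 → ∃ t, cc k j t = z := by
    intro z hz
    have hv0 : z.val ≠ 0 := fun h0 => hz ((ZMod.val_eq_zero z).1 h0)
    have hvN := ZMod.val_lt z
    have hzv : ((z.val : ℕ) : ZMod N) = z := ZMod.natCast_zmod_val z
    by_cases hE : z.val ≤ 3 * k + 2 * j + 2
    · obtain ⟨t, ht | ht⟩ := (h2 k j).2 z.val (by omega) hE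
      · refine ⟨t, ?_⟩
        unfold cc
        rw [ht, Int.cast_natCast]
        exact hzv
      · refine ⟨ngf k j t, ?_⟩
        rw [hneg]
        unfold cc
        rw [ht, Int.cast_neg, neg_neg, Int.cast_natCast]
        exact hzv
    · have hw : ((N - z.val : ℕ) : ZMod N) = -z := by
        rw [Nat.cast_sub hvN.le, hzv, ZMod.natCast_self, zero_sub]
      obtain ⟨t, ht | ht⟩ := (h2 k j).2 (N - z.val) (by omega) (by omega)
      · refine ⟨ngf k j t, ?_⟩
        rw [hneg]
        unfold cc
        rw [ht, Int.cast_natCast]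
        have : ((N - z.val : ℕ) : ZMod N) = -z := hw
        rw [this, neg_neg]
      · refine ⟨t, ?_⟩
        unfold cc
        rw [ht, Int.cast_neg, Int.cast_natCast]
        have : ((N - z.val : ℕ) : ZMod N) = -z := hw
        rw [this, neg_neg]
  have hinj : Function.Injective (cc k j) := by
    let f : TT k j → {z : ZMod N // z ≠ 0} := fun t => ⟨cc k j t, hnz t⟩
    have hf : Function.Surjective f := by
      rintro ⟨z, hz⟩
      obtain ⟨t, ht⟩ := hsur z hz
      exact ⟨t, Subtype.ext ht⟩
    have hcard : Fintype.card (TT k j) = Fintype.card {z : ZMod N // z ≠ 0} := by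
      rw [Fintype.card_subtype_compl, Fintype.card_subtype_eq, ZMod.card]
      simp only [Fintype.card_sum, Fintype.card_prod, Fintype.card_fin]
      omega
    have hb := (Fintype.bijective_iff_surjective_and_card f).2 ⟨hf, hcard⟩
    intro a b hab
    exact hb.1 (Subtype.ext hab)
  exact
    { ng2 := fun t => h t
      ngne := (h1 k j).2.1
      inj := hinj
      sur := hsur
      nz := hnz
      neg := hneg
      kcl := fun x hx => by
        obtain ⟨h4, h5⟩ := h3 k j t x hx
        refine ⟨h4, ?_⟩
        unfold cc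
        rw [← Int.cast_add, ← Int.cast_add, h5, Int.cast_zero] }

end Pool.Agent.Helper97.HW
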