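import Pool.Agent.Helper24.HW.Stmts

/-! HW: connectedness of the comb-ladder. -/

namespace Pool.Agent.Helper97.HW

open Equiv Equiv.Perm Pool.Agent.Helper24.HW Pool.Agent.Helper24.HWPub Pool.Agent.Helper98.Gn

theorem CNK : ST_CNK := by
  intro k j t _
  have hk := NeZero.pos k
  set R : TT k j → TT k j → Prop := fun u v => v = rot k j t u ∨ v = ngf k j u with hR
  set G := Relation.EqvGen R with hG
  have hrot : ∀ u, G u (rot k j t u) := fun u => Relation.EqvGen.rel _ _ (Or.inl rfl)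
  have hng : ∀ u, G u (ngf k j u) := fun u => Relation.EqvGen.rel _ _ (Or.inr rfl)
  have hsy : ∀ {u v}, G u v → G v u := fun h => Relation.EqvGen.symm _ _ h
  have htr : ∀ {u v w}, G u v → G v w → G u w := fun h h' => Relation.EqvGen.trans _ _ _ h h'
  have hrf : ∀ u, G u u := Relation.EqvGen.refl
  have hT1 : ∀ (i : Fin (k + j)) (a : Fin 3), G (Sum.inl (i, a)) (Sum.inl (i, a + 1)) :=
    fun i a => hrot (Sum.inl (i, a))
  have hT : ∀ (i : Fin (k + j)) (a b : Fin 3), G (Sum.inl (i, a)) (Sum.inl (i, b)) := by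
    intro i
    have h0 : ∀ a : Fin 3, G (Sum.inl (i, (0 : Fin 3))) (Sum.inl (i, a)) := by
      intro a
      fin_cases a
      · exact hrf _
      · exact hT1 i 0
      · exact htr (hT1 i 0) (hT1 i 1)
    intro a b
    exact htr (hsy (h0 a)) (h0 b)
  have hB : ∀ (i : Fin k) (a b : Fin 3), G (Sum.inr (Sum.inl (i, a))) (Sum.inr (Sum.inl (i, b))) := by
    intro i
    have hB1 : ∀ a : Fin 3, G (Sum.inr (Sum.inl (i, a)))
        (Sum.inr (Sum.inl (i, a + (if (i : ℕ) < t then 2 else 1)))) :=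
      fun a => hrot (Sum.inr (Sum.inl (i, a)))
    have h0 : ∀ a : Fin 3, G (Sum.inr (Sum.inl (i, (0 : Fin 3)))) (Sum.inr (Sum.inl (i, a))) := by
      by_cases hit : (i : ℕ) < t
      · simp only [hit, if_true] at hB1
        intro a
        fin_cases a
        · exact hrf _
        · exact htr (hB1 0) (hB1 2)
        · exact hB1 0
      · simp only [hit, if_false] at hB1
        intro a
        fin_cases a
        · exact hrf _
        · exact hB1 0
        · exact htr (hB1 0) (hB1 1)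
    intro a b
    exact htr (hsy (h0 a)) (h0 b)
  have hkj : 0 < k + j := by omega
  have hTT : ∀ (n : ℕ) (hn : n < k + j) (a : Fin 3),
      G (Sum.inl (⟨0, hkj⟩, (0 : Fin 3))) (Sum.inl (⟨n, hn⟩, a)) := by
    intro n
    induction n with
    | zero => exact fun hn a => hT _ _ _
    | succ n ih =>
      intro hn a
      have h1 := ih (by omega) 2
      have h2 := hng (Sum.inl (⟨n, by omega⟩, (2 : Fin 3)))
      have h3 : ngf k j (Sum.inl (⟨n, by omega⟩, (2 : Fin 3))) = Sum.inl (⟨n + 1, hn⟩, 0) := by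
        simp [ngf, hn]
      rw [h3] at h2
      exact htr (htr h1 h2) (hT _ _ _)
  have hTT' : ∀ (i : Fin (k + j)) (a : Fin 3),
      G (Sum.inl (⟨0, hkj⟩, (0 : Fin 3))) (Sum.inl (i, a)) := fun i a => hTT i i.2 a
  have hBB : ∀ (i : Fin k) (a : Fin 3),
      G (Sum.inl (⟨0, hkj⟩, (0 : Fin 3))) (Sum.inr (Sum.inl (i, a))) := by
    intro i a
    have h1 := hng (Sum.inr (Sum.inl (i, (1 : Fin 3))))
    exact htr (htr (hTT' _ _) (hsy h1)) (hB _ _ _)
  have hend : ∀ e : Fin j ⊕ Fin 4,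
      G (Sum.inl (⟨0, hkj⟩, (0 : Fin 3))) (Sum.inr (Sum.inr e)) := by
    rintro (p | e)
    · exact htr (hTT' _ _) (hsy (hng (Sum.inr (Sum.inr (Sum.inl p)))))
    · fin_cases e
      · exact htr (hTT' _ _) (hsy (hng (Sum.inr (Sum.inr (Sum.inr 0)))))
      · exact htr (hTT' _ _) (hsy (hng (Sum.inr (Sum.inr (Sum.inr 1)))))
      · exact htr (hBB _ _) (hsy (hng (Sum.inr (Sum.inr (Sum.inr 2)))))
      · exact htr (hBB _ _) (hsy (hng (Sum.inr (Sum.inr (Sum.inr 3)))))
  have hall : ∀ x : TT k j, G (Sum.inl (⟨0, hkj⟩, (0 : Fin 3))) x := by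
    rintro (⟨i, a⟩ | (⟨i, a⟩ | e))
    · exact hTT' i a
    · exact hBB i a
    · exact hend e
  intro x y
  exact htr (hsy (hall x)) (hall y)

end Pool.Agent.Helper97.HW
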